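import Mathlib
import Pool.Agent.H71.Cos2

namespace Pool.Agent.Results.MP_fae9ec_al.Disjoint

/-- `G/H` is an irreducible coset space: `H` is maximal among the proper closed subgroups -/
def Irreducible {G : Type} [Group G] [TopologicalSpace G] (H : Subgroup G) : Prop :=
  IsClosed (H : Set G) ∧ H ≠ ⊤ ∧ ∀ K : Subgroup G, IsClosed (K : Set G) → H ≤ K → K = H ∨ K = ⊤

/-- `G/H` is faithful: the conjugates of `H` intersect trivially -/
def Faithful {G : Type} [Group G] (H : Subgroup G) : Prop :=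
  ⨅ g : G, H.map (MulAut.conj g).toMonoidHom = ⊥

/-- minimal nontrivial closed normal subgroups -/
def MinClosedNormal {G : Type} [Group G] [TopologicalSpace G] (M : Subgroup G) : Prop :=
  IsClosed (M : Set G) ∧ M.Normal ∧ M ≠ ⊥ ∧
    ∀ K : Subgroup G, IsClosed (K : Set G) → K.Normal → K ≤ M → K = ⊥ ∨ K = M

theorem result : ∃ (G : Type) (_ : Group G) (_ : TopologicalSpace G), IsTopologicalGroup G ∧
    PolishSpace G ∧ ∃ H : Subgroup G, Irreducible H ∧ Faithful H ∧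
      ∃ M : Subgroup G, MinClosedNormal M ∧ (∀ x ∈ M, ∀ y ∈ M, x * y = y * x) ∧
        ∃ N : Subgroup G, IsClosed (N : Set G) ∧ N.Normal ∧ N ≠ ⊥ ∧ M ⊓ N = ⊥ := by
  obtain ⟨G, _, _, h1, h2, H, a, b, c, d, N, n1, n2, n3⟩ := H71.Cos.main
  have hm : ∀ i, MinClosedNormal (N i) := fun i =>
    ⟨(n1 i).1, (n1 i).2.1, (n1 i).2.2.1, fun K _ => (n1 i).2.2.2 K⟩
  refine ⟨G, _, _, h1, h2, H, ⟨a, b, c⟩, bot_unique fun g hg => d g fun k => ?_, N 0, hm 0, n3 0 0,
    N 1, (n1 1).1, (n1 1).2.1, (n1 1).2.2.1, n2 0 1 zero_ne_one⟩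
  · obtain ⟨x, hx, rfl⟩ := Subgroup.mem_iInf.1 hg k⁻¹
    simpa [mul_assoc] using hx

end Pool.Agent.Results.MP_fae9ec_al.Disjoint
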